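import Pool.Agent.H313R3.GK.R
import Pool.Agent.H313R3.GK.W

/-!
# The Mertens function of `Δ` oscillates in every window `[x, x (log x)^B]`, `B > 2`

Let `∑ b(n) n^(-s) = 1 / L(s, Δ)` and `M(y) = ∑_{n ≤ y} b(n)`.  We prove unconditionally that for
`B > 2` and all large `x` the window `[x, x (log x)^B]` contains `y₁`, `y₂` with `M(y₁) ≥ c y₁^6` and
`M(y₂) ≤ -c y₂^6`; more precisely every zero `ρ` of `Λ(s) = (2π)^(-s) Γ(s) L(s, Δ)` with `Re ρ > 0`, of
multiplicity at least `r`, forces `± M(y) ≥ c y^{Re ρ} (log y)^{r-1}`, with both signs, in every such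
window.  Hence a ONE-SIDED bound `M(y) ≤ o(y^6 log y)` on an arbitrarily sparse sequence of windows
already implies that all zeros of `Ξ_Δ` are real and simple.

Proof (modules `Pool.Agent.H313R3.GK.A` to `W`): the kernel `v ↦ Δ(i e^{-v})` is positive, decays like
`exp(-2π e^{|v|})` on both sides and its transform is `Λ`, which is annihilated by the Dirichlet
series of `b`; for a zero `ρ` the kernels of `Λ(s) (s - ρ)^{-j}` are dominated by it.
-/

set_option autoImplicit false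

namespace Pool.Agent.Results.MP_cd509c_nt.EveryWindow

open UpperHalfPlane MatrixGroups Filter

/-- `Δ(i y) = e^(-2πy) ∏_{n ≥ 1} (1 - e^(-2πny))^24` (the function of the frozen statement S18517). -/
noncomputable def delta (y : ℝ) : ℝ :=
  Real.exp (-2 * Real.pi * y) * ∏' n : ℕ, (1 - Real.exp (-2 * Real.pi * ((n : ℝ) + 1) * y)) ^ 24

/-- The completed L-function `Λ(s) = ∫_0^∞ Δ(i y) y^(s-1) dy = (2π)^(-s) Γ(s) L(s, Δ)`. -/
noncomputable def Lam (s : ℂ) : ℂ := mellin (fun y : ℝ => ((delta y : ℝ) : ℂ)) s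

/-- The Ramanujan Xi function `Ξ_Δ(z) = Λ(6 + i z)`. -/
noncomputable def Xi (z : ℂ) : ℂ := Lam (6 + Complex.I * z)

/-- Ramanujan's function `τ(n)`, the Fourier coefficients of `Δ` (they are real, see `result`). -/
noncomputable def tau (n : ℕ) : ℝ := ((qExpansion 1 (CuspForm.discriminant : ℍ → ℂ)).coeff n).re

/-- `b` is the Dirichlet inverse of `τ`: `∑_{de = n} τ(d) b(e) = 1` if `n = 1` and `0` if `n ≥ 2`, so that
`∑ b(n) n^(-s) = 1 / L(s, Δ)`. -/
def IsInverse (b : ℕ → ℝ) : Prop :=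
  ∀ n : ℕ, 1 ≤ n → ∑ p ∈ n.divisorsAntidiagonal, tau p.1 * b p.2 = if n = 1 then 1 else 0

/-- `M(y) = ∑_{n ≤ y} b(n)` -/
noncomputable def mertens (b : ℕ → ℝ) (y : ℝ) : ℝ := ∑ n ∈ Finset.Icc 1 ⌊y⌋₊, b n

/-- the window `[x, x (log x)^B]` -/
def window (B x : ℝ) : Set ℝ := Set.Icc x (x * Real.log x ^ B)

theorem result :
    -- the objects
    (∀ n : ℕ, ((tau n : ℝ) : ℂ) = (qExpansion 1 (CuspForm.discriminant : ℍ → ℂ)).coeff n) ∧
    (∀ y : ℝ, 0 < y → HasSum (fun n : ℕ => tau n * Real.exp (-(2 * Real.pi * n * y))) (delta y)) ∧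
    (∃ b : ℕ → ℝ, IsInverse b) ∧
    ∀ b : ℕ → ℝ, IsInverse b → ∀ B : ℝ, 2 < B →
      -- unconditional oscillation, with both signs, in every window
      (∃ c : ℝ, 0 < c ∧ ∀ᶠ x : ℝ in atTop, ∀ e : ℝ, e = 1 ∨ e = -1 → ∃ y ∈ window B x,
        c * y ^ 6 ≤ e * mertens b y) ∧
      -- every zero is visible, with both signs and its multiplicity, in every window
      (∀ (ρ : ℂ) (r : ℕ), 0 < ρ.re → 1 ≤ r → (r : ℕ∞) ≤ analyticOrderAt Lam ρ →
        ∃ c : ℝ, 0 < c ∧ ∀ᶠ x : ℝ in atTop, ∀ e : ℝ, e = 1 ∨ e = -1 → ∃ y ∈ window B x,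
          c * (y ^ ρ.re * Real.log y ^ (r - 1)) ≤ e * mertens b y) ∧
      -- a one-sided power bound on a sparse sequence of windows
      (∀ e : ℝ, e = 1 ∨ e = -1 → ∀ δ : ℝ, 6 ≤ δ → (∀ η : ℝ, 0 < η → ∃ᶠ x : ℝ in atTop, ∀ y ∈ window B x,
          e * mertens b y ≤ y ^ (δ + η)) →
        ∀ z : ℂ, Xi z = 0 → |z.im| ≤ δ - 6) ∧
      -- a one-sided bound `o(y^6 (log y)^j)` on a sparse sequence of windows
      (∀ e : ℝ, e = 1 ∨ e = -1 → ∀ j : ℕ, 1 ≤ j → (∀ η : ℝ, 0 < η → ∃ᶠ x : ℝ in atTop, ∀ y ∈ window B x,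
          e * mertens b y ≤ η * (y ^ 6 * Real.log y ^ j)) →
        (∀ z : ℂ, Xi z = 0 → z.im = 0) ∧ ∀ ρ : ℂ, Lam ρ = 0 → ρ.re = 6 ∧ analyticOrderAt Lam ρ ≤ j) := by
  have d := H313.GK.delta_hd
  have hτ : ∀ n : ℕ, ((tau n : ℝ) : ℂ) = (qExpansion 1 (CuspForm.discriminant : ℍ → ℂ)).coeff n := fun n =>
    Complex.conj_eq_iff_re.1 (H313.GK.delta_real n)
  have hpos : ∀ y : ℝ, 0 < y → 0 < (((Pool.Agent.H128R3.JD.DelK.Dl y : ℝ) : ℂ)).re := fun y hy => by
    rw [Complex.ofReal_re]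
    exact Pool.Agent.H128R3.JD.DelK.Dl_pos hy
  have h62 : ((12 : ℝ) / 2) = 6 := by norm_num
  refine ⟨hτ, fun y hy => ?_, ?_, fun b hb B hB => ?_⟩
  · have h := Complex.hasSum_re (H313.GK.delta_sum hy)
    rw [Complex.ofReal_re] at h
    convert! h using 2 with n
    rw [← hτ n, ← Complex.ofReal_mul, Complex.ofReal_re]
  · obtain ⟨b, hb⟩ := H313.GK.exists_dinv (fun n => ((tau n : ℝ) : ℂ)) (by
      exact (hτ 1).trans ModularForm.discriminant_qExpansion_coeff_one)
    refine ⟨fun n => (b n).re, fun n hn => ?_⟩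
    have h := congrArg Complex.re (hb n hn)
    rw [Complex.re_sum] at h
    simp only [Complex.re_ofReal_mul] at h
    rw [h]
    split_ifs <;> simp
  · have hab : H313.GK.DInv (fun n => (qExpansion 1 (CuspForm.discriminant : ℍ → ℂ)).coeff n)
        (fun n => ((b n : ℝ) : ℂ)) := by
      intro n hn
      have h := congrArg (fun t : ℝ => (t : ℂ)) (hb n hn)
      push_cast at h
      simp only [hτ] at h
      rw [h]
      split_ifs <;> simp
    refine ⟨?_, fun ρ r hρ hr1 hr => d.signs hpos hab hB hρ hr1 hr, fun e he δ hδ H z hz => ?_, fun e he j hj H => ?_⟩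
    · obtain ⟨c, hc, h⟩ := d.signs0 hpos hab hB
      refine ⟨c, hc, ?_⟩
      filter_upwards [h] with x hx e he
      obtain ⟨y, hy, h2⟩ := hx e he
      rw [h62] at h2
      refine ⟨y, hy, ?_⟩
      have h3 : y ^ (6 : ℝ) = y ^ 6 := by norm_cast
      rw [h3] at h2
      exact h2
    · have h := d.crit1_pow hpos hab hB (by rw [h62]; exact hδ) he H (6 + Complex.I * z) hz
      have h2 : (6 + Complex.I * z).re = 6 - z.im := by
        simp [Complex.mul_re]
        ring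
      rw [h2] at h
      rw [abs_le]
      constructor <;> linarith [h.1, h.2]
    · have key := d.crit1 hpos hab hB j hj he (fun η hη => (H η hη).mono fun x hx y hy => by
        have h3 : y ^ (6 : ℝ) = y ^ 6 := by norm_cast
        rw [h62, h3]
        exact hx y hy)
      rw [h62] at key
      refine ⟨fun z hz => ?_, key⟩
      have h := (key (6 + Complex.I * z) hz).1
      have h2 : (6 + Complex.I * z).re = 6 - z.im := by
        simp [Complex.mul_re]
        ring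
      rw [h2] at h
      linarith

end Pool.Agent.Results.MP_cd509c_nt.EveryWindow
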