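import Pool.Agent.H128R3.JD.DelHk
import Pool.Agent.H128R3.GJC
import Pool.Agent.H986R2.GD.Inst

/-!
# De Bruijn-Newman constants of the derivatives of the Ramanujan Xi function

Let `Λ(s) = (2π)^(-s) Γ(s) L(s, Δ)` and let `Λ_t = e^{t D²} Λ` (`D = d/ds`) be its heat flow.  All zeros of
the Ramanujan Xi function `Ξ_Δ(z) = Λ(6 + i z)` are real if and only if all zeros of `Λ_t` are on the
line `Re s = 6` for all `t > 0` (de Bruijn, Newman).  We prove that there is a constant `C` such that for
ALL `t > 0` and ALL `n ≥ C / t` every zero of the `n`-th derivative of `Λ_t` is on the line `Re s = 6`; and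
all zeros of `Ξ_Δ` are real if and only if the same is true in the remaining region `n t < C`.

The proof is in the starting modules `Pool.Agent.H986R2.GD` (generic version of the theorem for the
Riemann zeta function) and `Pool.Agent.H128R3.JD`.
-/

set_option autoImplicit false

namespace Pool.Agent.Results.MP_cd509c_nt.HeatFlowDerivatives

/-- `Δ(i y) = e^(-2πy) ∏_{n ≥ 1} (1 - e^(-2πny))^24`, the modular discriminant on the imaginary axis
(the function of the frozen statement S18517). -/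
noncomputable def delta (y : ℝ) : ℝ :=
  Real.exp (-2 * Real.pi * y) * ∏' n : ℕ, (1 - Real.exp (-2 * Real.pi * ((n : ℝ) + 1) * y)) ^ 24

/-- The completed L-function `Λ(s) = ∫_0^∞ Δ(i y) y^(s-1) dy = (2π)^(-s) Γ(s) L(s, Δ)`, an entire
function with `Λ(12 - s) = Λ(s)`. -/
noncomputable def Lam (s : ℂ) : ℂ := mellin (fun y : ℝ => ((delta y : ℝ) : ℂ)) s

/-- The Ramanujan Xi function `Ξ_Δ(z) = Λ(6 + i z)`. -/
noncomputable def Xi (z : ℂ) : ℂ := Lam (6 + Complex.I * z)

/-- The heat flow `Λ_t = e^{t D²} Λ` (`D = d/ds`) as a Gaussian average: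
`Λ_t(s) = π^(-1/2) ∫ exp (-v²) Λ(s + 2 √t v) dv`. -/
noncomputable def heat (t : ℝ) (Λ : ℂ → ℂ) (s : ℂ) : ℂ :=
  ((1 / Real.sqrt Real.pi : ℝ) : ℂ) *
    ∫ v : ℝ, ((Real.exp (-v ^ 2) : ℝ) : ℂ) * Λ (s + ((2 * Real.sqrt t * v : ℝ) : ℂ))

theorem result :
    ∃ C : ℝ, 0 < C ∧
      (∀ (t : ℝ) (n : ℕ), 0 < t → C ≤ n * t → ∀ s : ℂ,
        iteratedDeriv n (heat t Lam) s = 0 → s.re = 6) ∧
      ((∀ z : ℂ, Xi z = 0 → z.im = 0) ↔
        ∀ (t : ℝ) (n : ℕ), 0 < t → n * t < C → ∀ s : ℂ,
          iteratedDeriv n (heat t Lam) s = 0 → s.re = 6) := by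
  obtain ⟨B, hH⟩ := Pool.Agent.H128R3.JD.DelHk.isHk
  set H := Pool.Agent.H128R3.JD.DelHk.hk B with hHdef
  have hLam : (mellin (fun y : ℝ => ((H.φ y : ℝ) : ℂ))) = Lam := by
    funext s
    rfl
  have hk1 : ((H.k / 2 : ℝ) : ℂ) = 6 := by
    show (((12 : ℝ) / 2 : ℝ) : ℂ) = 6
    norm_num
  have hk3 : H.k / 2 = 6 := by
    show (12 : ℝ) / 2 = 6
    norm_num
  have hfs : Pool.Agent.H471R3.GJ.Inst.FS H = fun z : ℂ => Lam (6 + z) := by
    funext z
    unfold Pool.Agent.H471R3.GJ.Inst.FS
    rw [hk1, hLam]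
  have hheat : ∀ t : ℝ, Pool.Agent.H986R2.GD.heatG t (fun z : ℂ => Lam (6 + z)) =
      fun z => heat t Lam (6 + z) := by
    intro t
    funext z
    unfold Pool.Agent.H986R2.GD.heatG heat
    simp only [add_assoc]
  have hiter : ∀ (t : ℝ) (n : ℕ) (z : ℂ),
      iteratedDeriv n (Pool.Agent.H986R2.GD.heatG t (fun z : ℂ => Lam (6 + z))) z =
        iteratedDeriv n (heat t Lam) (6 + z) := by
    intro t n z
    rw [hheat]
    exact congrFun (iteratedDeriv_comp_const_add n (heat t Lam) 6) z
  have hcrit := Pool.Agent.H986R2.GD.critS H hH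
  rw [hfs, hk3, hLam] at hcrit
  obtain ⟨C, hC, h1, h2⟩ := hcrit
  have hRH : (∀ z : ℂ, Xi z = 0 → z.im = 0) ↔ ∀ s : ℂ, Lam s = 0 → s.re = 6 := by
    constructor
    · intro h s hs
      have h3 := h (-Complex.I * (s - 6)) (by
        unfold Xi
        have : 6 + Complex.I * (-Complex.I * (s - 6)) = s := by
          have hI := Complex.I_mul_I
          linear_combination (-(s - 6)) * hI
        rw [this]
        exact hs)
      have h4 : (-Complex.I * (s - 6)).im = -(s.re - 6) := by
        simp [Complex.mul_im]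
      rw [h4] at h3
      linarith
    · intro h z hz
      have h3 := h (6 + Complex.I * z) hz
      have h4 : (6 + Complex.I * z).re = 6 - z.im := by
        simp [Complex.mul_re]
        ring
      rw [h4] at h3
      linarith
  have h6 : (6 : ℂ).re = 6 := rfl
  refine ⟨C, hC, ?_, (hRH.trans h2).trans ?_⟩
  · intro t n ht hn s hs
    have h3 := h1 t n ht hn (s - 6) (by
      rw [hiter]
      have : 6 + (s - 6) = s := by ring
      rw [this, hs])
    rw [Complex.sub_re, h6] at h3
    linarith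
  · constructor
    · intro h t n ht hn s hs
      have h3 := h t n ht hn (s - 6) (by
        rw [hiter]
        have : 6 + (s - 6) = s := by ring
        rw [this, hs])
      rw [Complex.sub_re, h6] at h3
      linarith
    · intro h t n ht hn z hz
      rw [hiter] at hz
      have h3 := h t n ht hn _ hz
      rw [Complex.add_re, h6] at h3
      linarith

end Pool.Agent.Results.MP_cd509c_nt.HeatFlowDerivatives
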