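import Pool.Agent.H128R3.JD.DelHk
import Pool.Agent.H128R3.GJC

/-!
# Zeros of the high derivatives of the Ramanujan Xi function

The Riemann hypothesis for the Ramanujan L-function says that all zeros of `Ξ_Δ(z) = Λ(6 + i z)` are
real.  We prove the corresponding assertion for the derivatives of `Ξ_Δ` of high order up to a height
that is exponential in the order: for `n ≥ n₀` every zero `z` of `Ξ_Δ^(n)` with `|Re z| ≤ e^(c n)`
is real and simple.

The analytic part is the starting module `Pool.Agent.H128R3.GJB` (theorem `deriv_zeros`).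
-/

set_option autoImplicit false

namespace Pool.Agent.Results.MP_cd509c_nt.HighDerivativeZeros

/-- `Δ(i y) = e^(-2πy) ∏_{n ≥ 1} (1 - e^(-2πny))^24`, the modular discriminant on the imaginary axis
(the function of the frozen statement S18517). -/
noncomputable def delta (y : ℝ) : ℝ :=
  Real.exp (-2 * Real.pi * y) * ∏' n : ℕ, (1 - Real.exp (-2 * Real.pi * ((n : ℝ) + 1) * y)) ^ 24

/-- The completed L-function `Λ(s) = ∫_0^∞ Δ(i y) y^(s-1) dy = (2π)^(-s) Γ(s) L(s, Δ)`, an entire
function with `Λ(12 - s) = Λ(s)`. -/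
noncomputable def Lam (s : ℂ) : ℂ := mellin (fun y : ℝ => ((delta y : ℝ) : ℂ)) s

/-- The Ramanujan Xi function `Ξ_Δ(z) = Λ(6 + i z)`. -/
noncomputable def Xi (z : ℂ) : ℂ := Lam (6 + Complex.I * z)

theorem result :
    ∃ c : ℝ, 0 < c ∧ ∃ n₀ : ℕ, ∀ n : ℕ, n₀ ≤ n →
      ∀ z : ℂ, iteratedDeriv n Xi z = 0 → |z.re| ≤ Real.exp (c * n) →
        z.im = 0 ∧ iteratedDeriv (n + 1) Xi z ≠ 0 := by
  obtain ⟨B, hB⟩ := Pool.Agent.H128R3.JD.DelHk.isHk
  set H := Pool.Agent.H128R3.JD.DelHk.hk B with hH
  have hk : H.k / 2 = 6 := by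
    show (12 : ℝ) / 2 = 6
    norm_num
  have hLam : (mellin (fun y : ℝ => ((H.φ y : ℝ) : ℂ))) = Lam := by
    funext s
    rfl
  have hdiff : Differentiable ℂ Lam := by
    have h1 := Pool.Agent.H128R3.GJB.mellin_diff hB
    rw [hLam] at h1
    exact h1
  have hder : ∀ (n : ℕ) (z : ℂ), iteratedDeriv n Xi z =
      Complex.I ^ n * iteratedDeriv n Lam (6 + Complex.I * z) := by
    intro n
    induction n with
    | zero =>
      intro z
      simp [Xi]
    | succ n ih =>
      intro z
      have hd : Differentiable ℂ (iteratedDeriv n Lam) := by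
        have h2 : ContDiff ℂ ((n + 1 : ℕ) : ℕ∞) Lam := hdiff.contDiff
        exact h2.differentiable_iteratedDeriv n (by exact_mod_cast Nat.lt_succ_self n)
      rw [iteratedDeriv_succ]
      have h3 : iteratedDeriv n Xi = fun z => Complex.I ^ n * iteratedDeriv n Lam (6 + Complex.I * z) := by
        funext w
        exact ih w
      rw [h3]
      have h4 : HasDerivAt (fun w : ℂ => 6 + Complex.I * w) (Complex.I) z := by
        have := ((hasDerivAt_id z).const_mul Complex.I).const_add 6
        simpa using this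
      have h5 : HasDerivAt (iteratedDeriv n Lam) (deriv (iteratedDeriv n Lam) (6 + Complex.I * z))
          (6 + Complex.I * z) := (hd _).hasDerivAt
      have h6 := (h5.comp z h4).const_mul (Complex.I ^ n)
      have h7 := h6.deriv
      rw [show (fun y => Complex.I ^ n * (iteratedDeriv n Lam ∘ fun w : ℂ => 6 + Complex.I * w) y)
        = fun z => Complex.I ^ n * iteratedDeriv n Lam (6 + Complex.I * z) from rfl] at h7
      rw [h7, iteratedDeriv_succ, pow_succ]
      ring
  obtain ⟨c, hc, N0, h⟩ := Pool.Agent.H128R3.GJB.deriv_zeros hB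
  rw [hLam, hk] at h
  have hI : ∀ n : ℕ, (Complex.I) ^ n ≠ 0 := fun n => pow_ne_zero n Complex.I_ne_zero
  refine ⟨c, hc, N0, fun n hn z hz hz2 => ?_⟩
  rw [hder] at hz
  have hz' : iteratedDeriv n Lam (6 + Complex.I * z) = 0 := by
    rcases mul_eq_zero.1 hz with h1 | h1
    · exact absurd h1 (hI n)
    · exact h1
  have him : (6 + Complex.I * z).im = z.re := by
    simp [Complex.mul_im]
  have hre : (6 + Complex.I * z).re = 6 - z.im := by
    simp [Complex.mul_re]
    ring
  obtain ⟨h1, h2⟩ := h n hn (6 + Complex.I * z) hz' (by rw [him]; exact hz2)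
  rw [hre] at h1
  refine ⟨by linarith, ?_⟩
  rw [hder]
  exact mul_ne_zero (hI _) h2

end Pool.Agent.Results.MP_cd509c_nt.HighDerivativeZeros
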